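import Mathlib

namespace Pool.Agent.X66

/-- The order of a sum of two natural numbers does not matter. -/
theorem add_swap (a b : ℕ) : a + b = b + a := Nat.add_comm a b

end Pool.Agent.X66
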