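import Mathlib

set_option autoImplicit false

namespace Pool.Agent.X66.NTL

open Finset

/-- Pairs of positive integers with product at most `T`. -/
def D (T : ℕ) : Finset (ℕ × ℕ) := ((Icc 1 T) ×ˢ (Icc 1 T)).filter (fun p => p.1 * p.2 ≤ T)

theorem sum_inv (T : ℕ) : ∑ u ∈ Icc 1 T, (1 : ℝ) / u ≤ 1 + Real.log T := by
  have h := harmonic_le_one_add_log T
  rw [harmonic_eq_sum_Icc] at h
  push_cast at h
  simpa [one_div] using h

theorem card_le (T m : ℕ) (hm : 1 ≤ m) :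
    (((Icc 1 T).filter (fun v => m * v ≤ T)).card : ℝ) ≤ (T : ℝ) / m := by
  have h1 : ((Icc 1 T).filter (fun v => m * v ≤ T)) ⊆ Icc 1 (T / m) := by
    intro v hv
    rw [mem_filter, mem_Icc] at hv
    rw [mem_Icc]
    refine ⟨hv.1.1, ?_⟩
    rw [Nat.le_div_iff_mul_le (by omega)]
    linarith [hv.2, mul_comm v m]
  have h2 := card_le_card h1
  rw [Nat.card_Icc, Nat.add_sub_cancel] at h2
  calc (((Icc 1 T).filter (fun v => m * v ≤ T)).card : ℝ) ≤ ((T / m : ℕ) : ℝ) := by exact_mod_cast h2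
    _ ≤ (T : ℝ) / m := Nat.cast_div_le

theorem card_D (T : ℕ) : ((D T).card : ℝ) ≤ T * (1 + Real.log T) := by
  have h1 : ((D T).card : ℝ) = ∑ u ∈ Icc 1 T, (((Icc 1 T).filter (fun v => u * v ≤ T)).card : ℝ) := by
    rw [D, card_filter, sum_product]
    push_cast
    refine sum_congr rfl fun u _ => ?_
    rw [card_filter]
    push_cast
    rfl
  rw [h1]
  calc ∑ u ∈ Icc 1 T, (((Icc 1 T).filter (fun v => u * v ≤ T)).card : ℝ)
      ≤ ∑ u ∈ Icc 1 T, (T : ℝ) * (1 / u) := by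
        refine sum_le_sum fun u hu => ?_
        rw [mem_Icc] at hu
        have := card_le T u hu.1
        rw [mul_one_div]; exact this
    _ = T * ∑ u ∈ Icc 1 T, (1 : ℝ) / u := by rw [mul_sum]
    _ ≤ T * (1 + Real.log T) := by
        gcongr
        exact sum_inv T

/-- The weight. -/
noncomputable def W (p : ℕ × ℕ) : ℝ := (Nat.gcd p.1 p.2 : ℝ) / (max p.1 p.2 : ℕ)

/-- the triples `(d, a, b)` -/
def Q (s : ℕ) : Finset (ℕ × ℕ × ℕ) :=
  ((Icc 1 s) ×ˢ (Icc 1 (s ^ 2)) ×ˢ (Icc 1 (s ^ 2))).filter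
    (fun q => q.2.2 ≤ q.2.1 ∧ (q.1 ^ 2 * q.2.1) * q.2.2 ≤ s ^ 2)

theorem sum_min (s d : ℕ) (hd : 1 ≤ d) (hds : d ≤ s) :
    ∑ a ∈ Icc 1 (s ^ 2), min 1 ((s : ℝ) ^ 2 / (d ^ 2 * a ^ 2)) ≤ 3 * (s / d) := by
  have hd0 : (0 : ℝ) < d := by exact_mod_cast hd
  have hs0 : (0 : ℝ) < s := by exact_mod_cast (by omega : 0 < s)
  set r := s / d with hr
  have hr1 : 1 ≤ r := by
    rw [hr, Nat.le_div_iff_mul_le (by omega)]; omega
  have hrs : r ≤ s ^ 2 := by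
    have h1 : r ≤ s := Nat.div_le_self _ _
    nlinarith
  have hr0 : (0 : ℝ) < r := by exact_mod_cast hr1
  have hsplit : Icc 1 (s ^ 2) = Icc 1 r ∪ Ioc r (s ^ 2) := by
    ext a
    simp only [mem_Icc, mem_union, mem_Ioc]
    omega
  have hdisj : Disjoint (Icc 1 r) (Ioc r (s ^ 2)) := by
    rw [Finset.disjoint_left]
    intro a ha hb
    rw [mem_Icc] at ha
    rw [mem_Ioc] at hb
    omega
  rw [hsplit, sum_union hdisj]
  have hrle : (r : ℝ) ≤ s / d := Nat.cast_div_le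
  have h1 : ∑ a ∈ Icc 1 r, min 1 ((s : ℝ) ^ 2 / (d ^ 2 * a ^ 2)) ≤ s / d := by
    calc ∑ a ∈ Icc 1 r, min 1 ((s : ℝ) ^ 2 / (d ^ 2 * a ^ 2)) ≤ ∑ a ∈ Icc 1 r, (1 : ℝ) :=
          sum_le_sum fun a _ => min_le_left _ _
      _ = r := by simp
      _ ≤ s / d := hrle
  have h2 : ∑ a ∈ Ioc r (s ^ 2), min 1 ((s : ℝ) ^ 2 / (d ^ 2 * a ^ 2)) ≤ 2 * (s / d) := by
    calc ∑ a ∈ Ioc r (s ^ 2), min 1 ((s : ℝ) ^ 2 / (d ^ 2 * a ^ 2))
        ≤ ∑ a ∈ Ioc r (s ^ 2), ((s : ℝ) ^ 2 / d ^ 2) * ((a : ℝ) ^ 2)⁻¹ := by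
          refine sum_le_sum fun a ha => ?_
          refine (min_le_right _ _).trans (le_of_eq ?_)
          rw [mem_Ioc] at ha
          have ha0 : (0 : ℝ) < a := by exact_mod_cast (by omega : 0 < a)
          field_simp
      _ = ((s : ℝ) ^ 2 / d ^ 2) * ∑ a ∈ Ioc r (s ^ 2), ((a : ℝ) ^ 2)⁻¹ := by rw [mul_sum]
      _ ≤ ((s : ℝ) ^ 2 / d ^ 2) * ((r : ℝ)⁻¹ - ((s ^ 2 : ℕ) : ℝ)⁻¹) := by
          gcongr
          exact sum_Ioc_inv_sq_le_sub (by omega) hrs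
      _ ≤ ((s : ℝ) ^ 2 / d ^ 2) * (r : ℝ)⁻¹ := by
          gcongr
          have : (0 : ℝ) ≤ ((s ^ 2 : ℕ) : ℝ)⁻¹ := by positivity
          linarith
      _ ≤ 2 * (s / d) := by
          have h3 : (s : ℝ) / d ≤ 2 * r := by
            have h4 : s < (r + 1) * d := by
              have e1 := Nat.div_add_mod s d
              have e2 := Nat.mod_lt s hd
              rw [← hr] at e1
              nlinarith
            have h5 : (s : ℝ) < (r + 1) * d := by exact_mod_cast h4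
            rw [div_le_iff₀ hd0]
            have h6 : (1 : ℝ) ≤ r := by exact_mod_cast hr1
            nlinarith
          have h7 : (s : ℝ) ^ 2 / d ^ 2 = (s / d) * (s / d) := by field_simp
          rw [h7, mul_inv_le_iff₀ hr0]
          have h8 : 0 < (s : ℝ) / d := by positivity
          nlinarith
  linarith


theorem sum_Q (s : ℕ) : ∑ q ∈ Q s, (1 : ℝ) / q.2.1 ≤ 3 * s * (1 + Real.log s) := by
  have h1 : ∑ q ∈ Q s, (1 : ℝ) / q.2.1 = ∑ d ∈ Icc 1 s, ∑ a ∈ Icc 1 (s ^ 2),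
      (((Icc 1 (s ^ 2)).filter (fun b => b ≤ a ∧ (d ^ 2 * a) * b ≤ s ^ 2)).card : ℝ) * (1 / a) := by
    rw [Q, sum_filter, sum_product]
    refine sum_congr rfl fun d _ => ?_
    rw [sum_product]
    refine sum_congr rfl fun a _ => ?_
    rw [← sum_filter]
    simp only [sum_const, nsmul_eq_mul]
  rw [h1]
  calc ∑ d ∈ Icc 1 s, ∑ a ∈ Icc 1 (s ^ 2),
      (((Icc 1 (s ^ 2)).filter (fun b => b ≤ a ∧ (d ^ 2 * a) * b ≤ s ^ 2)).card : ℝ) * (1 / a)
      ≤ ∑ d ∈ Icc 1 s, ∑ a ∈ Icc 1 (s ^ 2), min 1 ((s : ℝ) ^ 2 / (d ^ 2 * a ^ 2)) := by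
        refine sum_le_sum fun d hd => sum_le_sum fun a ha => ?_
        rw [mem_Icc] at hd ha
        have ha0 : (0 : ℝ) < a := by exact_mod_cast ha.1
        have hd0 : (0 : ℝ) < d := by exact_mod_cast hd.1
        rw [le_min_iff]
        constructor
        · have h2 : ((Icc 1 (s ^ 2)).filter (fun b => b ≤ a ∧ (d ^ 2 * a) * b ≤ s ^ 2)) ⊆ Icc 1 a := by
            intro b hb
            rw [mem_filter, mem_Icc] at hb
            rw [mem_Icc]
            exact ⟨hb.1.1, hb.2.1⟩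
          have h3 := card_le_card h2
          rw [Nat.card_Icc, Nat.add_sub_cancel] at h3
          have h4 : (((Icc 1 (s ^ 2)).filter (fun b => b ≤ a ∧ (d ^ 2 * a) * b ≤ s ^ 2)).card : ℝ) ≤ a := by
            exact_mod_cast h3
          rw [mul_one_div, div_le_one ha0]
          exact h4
        · have h2 : ((Icc 1 (s ^ 2)).filter (fun b => b ≤ a ∧ (d ^ 2 * a) * b ≤ s ^ 2)) ⊆
              ((Icc 1 (s ^ 2)).filter (fun b => (d ^ 2 * a) * b ≤ s ^ 2)) := by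
            intro b hb
            rw [mem_filter] at hb ⊢
            exact ⟨hb.1, hb.2.2⟩
          have hpos : 1 ≤ d ^ 2 * a := Nat.mul_pos (pow_pos hd.1 2) ha.1
          have h3 := (Nat.cast_le (α := ℝ).2 (card_le_card h2)).trans (card_le (s ^ 2) (d ^ 2 * a) hpos)
          calc _ ≤ (((s ^ 2 : ℕ) : ℝ) / ((d ^ 2 * a : ℕ) : ℝ)) * (1 / a) := by gcongr
            _ = (s : ℝ) ^ 2 / (d ^ 2 * a ^ 2) := by push_cast; field_simp
    _ ≤ ∑ d ∈ Icc 1 s, 3 * ((s : ℝ) / d) := by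
        refine sum_le_sum fun d hd => ?_
        rw [mem_Icc] at hd
        exact sum_min s d hd.1 hd.2
    _ = 3 * s * ∑ d ∈ Icc 1 s, (1 : ℝ) / d := by
        rw [mul_sum]
        refine sum_congr rfl fun d _ => by ring
    _ ≤ 3 * s * (1 + Real.log s) := by
        gcongr
        exact sum_inv s

theorem sum_half (s : ℕ) (hs : 1 ≤ s) :
    ∑ p ∈ (D (s ^ 2)).filter (fun p => p.2 ≤ p.1), (Nat.gcd p.1 p.2 : ℝ) / p.1 ≤
      3 * s * (1 + Real.log s) := by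
  refine le_trans ?_ (sum_Q s)
  set φ : ℕ × ℕ → ℕ × ℕ × ℕ := fun p =>
    (Nat.gcd p.1 p.2, p.1 / Nat.gcd p.1 p.2, p.2 / Nat.gcd p.1 p.2) with hφ
  have hmem : ∀ p ∈ (D (s ^ 2)).filter (fun p => p.2 ≤ p.1), 0 < Nat.gcd p.1 p.2 ∧
      p.1 = Nat.gcd p.1 p.2 * (p.1 / Nat.gcd p.1 p.2) ∧
      p.2 = Nat.gcd p.1 p.2 * (p.2 / Nat.gcd p.1 p.2) := by
    intro p hp
    rw [mem_filter, D, mem_filter, mem_product, mem_Icc, mem_Icc] at hp
    refine ⟨Nat.gcd_pos_of_pos_left _ (by omega), ?_, ?_⟩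
    · exact (Nat.mul_div_cancel' (Nat.gcd_dvd_left _ _)).symm
    · exact (Nat.mul_div_cancel' (Nat.gcd_dvd_right _ _)).symm
  have hinj : Set.InjOn φ ((D (s ^ 2)).filter (fun p => p.2 ≤ p.1) : Set (ℕ × ℕ)) := by
    intro p hp q hq h
    have hp' := hmem p (by exact_mod_cast hp)
    have hq' := hmem q (by exact_mod_cast hq)
    simp only [hφ, Prod.mk.injEq] at h
    obtain ⟨h1, h2, h3⟩ := h
    ext
    · rw [hp'.2.1, hq'.2.1, h2, h1]
    · rw [hp'.2.2, hq'.2.2, h3, h1]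
  have himg : ((D (s ^ 2)).filter (fun p => p.2 ≤ p.1)).image φ ⊆ Q s := by
    intro q hq
    rw [mem_image] at hq
    obtain ⟨p, hp, rfl⟩ := hq
    obtain ⟨hg, e1, e2⟩ := hmem p hp
    rw [mem_filter, D, mem_filter, mem_product, mem_Icc, mem_Icc] at hp
    obtain ⟨⟨⟨⟨u1, u2⟩, v1, v2⟩, huv⟩, hvu⟩ := hp
    simp only [hφ, Q, mem_filter, mem_product, mem_Icc]
    set g := Nat.gcd p.1 p.2 with hgdef
    set a := p.1 / g with ha
    set b := p.2 / g with hb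
    have ha1 : 1 ≤ a := by
      refine Nat.pos_of_ne_zero fun h0 => ?_
      rw [h0, mul_zero] at e1; omega
    have hb1 : 1 ≤ b := by
      refine Nat.pos_of_ne_zero fun h0 => ?_
      rw [h0, mul_zero] at e2; omega
    have hprod : (g ^ 2 * a) * b ≤ s ^ 2 := by
      rw [e1, e2] at huv
      nlinarith
    have hab : 1 ≤ a * b := Nat.mul_pos ha1 hb1
    refine ⟨⟨⟨hg, ?_⟩, ⟨ha1, ?_⟩, hb1, ?_⟩, ?_, hprod⟩
    · by_contra hc
      push Not at hc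
      have h1 : s ^ 2 < g ^ 2 := Nat.pow_lt_pow_left hc (by norm_num)
      nlinarith
    · exact (Nat.div_le_self _ _).trans u2
    · exact (Nat.div_le_self _ _).trans v2
    · exact Nat.div_le_div_right hvu
  have hsum : ∑ p ∈ (D (s ^ 2)).filter (fun p => p.2 ≤ p.1), (Nat.gcd p.1 p.2 : ℝ) / p.1 =
      ∑ q ∈ ((D (s ^ 2)).filter (fun p => p.2 ≤ p.1)).image φ, (1 : ℝ) / q.2.1 := by
    rw [sum_image hinj]
    refine sum_congr rfl fun p hp => ?_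
    obtain ⟨hg, e1, e2⟩ := hmem p hp
    rw [mem_filter, D, mem_filter, mem_product, mem_Icc, mem_Icc] at hp
    have hg0 : (Nat.gcd p.1 p.2 : ℝ) ≠ 0 := by exact_mod_cast hg.ne'
    simp only [hφ]
    have e3 : (p.1 : ℝ) = Nat.gcd p.1 p.2 * ((p.1 / Nat.gcd p.1 p.2 : ℕ) : ℝ) := by
      exact_mod_cast e1
    have ha0 : ((p.1 / Nat.gcd p.1 p.2 : ℕ) : ℝ) ≠ 0 := by
      intro hc
      rw [hc, mul_zero] at e3
      have : p.1 = 0 := by exact_mod_cast e3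
      omega
    rw [div_eq_div_iff (by rw [e3]; positivity) ha0, one_mul]
    exact e3.symm
  rw [hsum]
  exact sum_le_sum_of_subset_of_nonneg himg fun q _ _ => by positivity

theorem sum_W (s : ℕ) (hs : 1 ≤ s) : ∑ p ∈ D (s ^ 2), W p ≤ 6 * s * (1 + Real.log s) := by
  have h1 : ∑ p ∈ D (s ^ 2), W p ≤
      ∑ p ∈ D (s ^ 2), ((if p.2 ≤ p.1 then (Nat.gcd p.1 p.2 : ℝ) / p.1 else 0) +
        (if p.1 ≤ p.2 then (Nat.gcd p.1 p.2 : ℝ) / p.2 else 0)) := by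
    refine sum_le_sum fun p _ => ?_
    rw [W]
    rcases le_total p.2 p.1 with h | h
    · rw [if_pos h, max_eq_left h]
      have : 0 ≤ (if p.1 ≤ p.2 then (Nat.gcd p.1 p.2 : ℝ) / p.2 else 0) := by
        split_ifs <;> positivity
      linarith
    · rw [if_pos h, max_eq_right h]
      have : 0 ≤ (if p.2 ≤ p.1 then (Nat.gcd p.1 p.2 : ℝ) / p.1 else 0) := by
        split_ifs <;> positivity
      linarith
  rw [sum_add_distrib, ← sum_filter, ← sum_filter] at h1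
  have h2 : ∑ p ∈ (D (s ^ 2)).filter (fun p => p.1 ≤ p.2), (Nat.gcd p.1 p.2 : ℝ) / p.2 =
      ∑ p ∈ (D (s ^ 2)).filter (fun p => p.2 ≤ p.1), (Nat.gcd p.1 p.2 : ℝ) / p.1 := by
    refine sum_bij (fun p _ => (p.2, p.1)) ?_ ?_ ?_ ?_
    · intro p hp
      rw [mem_filter, D, mem_filter, mem_product] at hp ⊢
      exact ⟨⟨⟨hp.1.1.2, hp.1.1.1⟩, by show p.2 * p.1 ≤ s ^ 2; rw [mul_comm]; exact hp.1.2⟩, hp.2⟩
    · intro p _ q _ h
      simp only [Prod.mk.injEq] at h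
      exact Prod.ext h.2 h.1
    · intro p hp
      refine ⟨(p.2, p.1), ?_, rfl⟩
      rw [mem_filter, D, mem_filter, mem_product] at hp ⊢
      exact ⟨⟨⟨hp.1.1.2, hp.1.1.1⟩, by show p.2 * p.1 ≤ s ^ 2; rw [mul_comm]; exact hp.1.2⟩, hp.2⟩
    · intro p _
      show (Nat.gcd p.1 p.2 : ℝ) / p.2 = (Nat.gcd p.2 p.1 : ℝ) / p.2
      rw [Nat.gcd_comm]
  rw [h2] at h1
  have h3 := sum_half s hs
  linarith

end Pool.Agent.X66.NTL
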