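import Pool.Agent.X66.LLL
import Pool.Agent.X66.Sum

set_option autoImplicit false

namespace Pool.Agent.X66.NTL

open Finset Classical

/-- Elements of `[0, H)` that are pairwise congruent modulo `m`. -/
theorem card_congr (H m : ℕ) (S : Finset ℕ) (hS : ∀ x ∈ S, x < H)
    (hc : ∀ x ∈ S, ∀ y ∈ S, x % m = y % m) : S.card ≤ H / m + 1 := by
  have hinj : Set.InjOn (fun x => x / m) (S : Set ℕ) := by
    intro x hx y hy h
    have h1 := hc x (by exact_mod_cast hx) y (by exact_mod_cast hy)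
    have h2 : x / m = y / m := h
    rw [← Nat.div_add_mod x m, ← Nat.div_add_mod y m, h1, h2]
  rw [← card_image_of_injOn hinj, ← card_range (H / m + 1)]
  refine card_le_card fun y hy => ?_
  rw [mem_image] at hy
  obtain ⟨x, hx, rfl⟩ := hy
  rw [mem_range]
  exact Nat.lt_succ_of_le (Nat.div_le_div_right (hS x hx).le)

/-- The number of solutions of `v (α + x) + u (β + z) = γ` in a box. -/
theorem count_sol (H u v α β γ : ℕ) (hu : 1 ≤ u) (hv : 1 ≤ v) :
    (((univ : Finset (Fin H × Fin H)).filter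
      (fun p => v * (α + p.1) + u * (β + p.2) = γ)).card : ℝ) ≤ H * W (u, v) + 1 := by
  set S := (univ : Finset (Fin H × Fin H)).filter
      (fun p => v * (α + p.1) + u * (β + p.2) = γ) with hS
  have hg : 0 < Nat.gcd u v := Nat.gcd_pos_of_pos_left _ hu
  have hmem : ∀ p ∈ S, v * (α + p.1) + u * (β + p.2) = γ := by
    intro p hp
    rw [hS, mem_filter] at hp
    exact hp.2
  obtain ⟨u', hu', v', hv', hcop⟩ : ∃ u', u = Nat.gcd u v * u' ∧ ∃ v', v = Nat.gcd u v * v' ∧
      Nat.Coprime u' v' :=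
    ⟨u / Nat.gcd u v, (Nat.mul_div_cancel' (Nat.gcd_dvd_left u v)).symm, v / Nat.gcd u v,
      (Nat.mul_div_cancel' (Nat.gcd_dvd_right u v)).symm, Nat.coprime_div_gcd_div_gcd hg⟩
  have hu1 : 1 ≤ u' := by
    refine Nat.pos_of_ne_zero fun h0 => ?_
    rw [h0, mul_zero] at hu'; omega
  have hv1 : 1 ≤ v' := by
    refine Nat.pos_of_ne_zero fun h0 => ?_
    rw [h0, mul_zero] at hv'; omega
  -- reduced equation for two solutions
  have hred : ∀ p ∈ S, ∀ q ∈ S, (v' : ℤ) * ((p.1 : ℕ) - (q.1 : ℕ)) = u' * ((q.2 : ℕ) - (p.2 : ℕ)) := by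
    intro p hp q hq
    have h1 := hmem p hp
    have h2 := hmem q hq
    have h3 : ((v * (α + p.1) + u * (β + p.2) : ℕ) : ℤ) = ((v * (α + q.1) + u * (β + q.2) : ℕ) : ℤ) := by
      rw [h1, h2]
    have h4 : ((v : ℤ)) = Nat.gcd u v * v' := by exact_mod_cast hv'
    have h5 : ((u : ℤ)) = Nat.gcd u v * u' := by exact_mod_cast hu'
    push_cast at h3
    have h6 : (Nat.gcd u v : ℤ) * ((v' : ℤ) * ((p.1 : ℕ) - (q.1 : ℕ))) =
        (Nat.gcd u v : ℤ) * (u' * ((q.2 : ℕ) - (p.2 : ℕ))) := by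
      have e1 : (Nat.gcd u v : ℤ) * ((v' : ℤ) * ((p.1 : ℕ) - (q.1 : ℕ))) =
        v * ((p.1 : ℕ) - (q.1 : ℕ)) := by rw [h4]; ring
      have e2 : (Nat.gcd u v : ℤ) * (u' * ((q.2 : ℕ) - (p.2 : ℕ))) =
        u * ((q.2 : ℕ) - (p.2 : ℕ)) := by rw [h5]; ring
      rw [e1, e2]
      linarith
    exact mul_left_cancel₀ (by exact_mod_cast hg.ne') h6
  have hx : ∀ p ∈ S, ∀ q ∈ S, (p.1 : ℕ) % u' = (q.1 : ℕ) % u' := by
    intro p hp q hq
    have h1 := hred p hp q hq
    have h2 : (u' : ℤ) ∣ (v' : ℤ) * ((p.1 : ℕ) - (q.1 : ℕ)) := ⟨_, h1⟩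
    have h3 : (u' : ℤ) ∣ ((p.1 : ℕ) - (q.1 : ℕ) : ℤ) := by
      refine IsCoprime.dvd_of_dvd_mul_left ?_ h2
      exact Nat.isCoprime_iff_coprime.2 hcop
    have h4 : ((q.1 : ℕ) : ℤ) ≡ ((p.1 : ℕ) : ℤ) [ZMOD u'] := Int.modEq_iff_dvd.2 h3
    exact (Int.natCast_modEq_iff.1 h4).symm
  have hz : ∀ p ∈ S, ∀ q ∈ S, (p.2 : ℕ) % v' = (q.2 : ℕ) % v' := by
    intro p hp q hq
    have h1 := hred q hq p hp
    have h2 : (v' : ℤ) ∣ (u' : ℤ) * ((p.2 : ℕ) - (q.2 : ℕ)) := ⟨_, h1.symm⟩
    have h3 : (v' : ℤ) ∣ ((p.2 : ℕ) - (q.2 : ℕ) : ℤ) := by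
      refine IsCoprime.dvd_of_dvd_mul_left ?_ h2
      exact Nat.isCoprime_iff_coprime.2 hcop.symm
    have h4 : ((q.2 : ℕ) : ℤ) ≡ ((p.2 : ℕ) : ℤ) [ZMOD v'] := Int.modEq_iff_dvd.2 h3
    exact (Int.natCast_modEq_iff.1 h4).symm
  have hinj1 : Set.InjOn (fun p : Fin H × Fin H => (p.1 : ℕ)) (S : Set (Fin H × Fin H)) := by
    intro p hp q hq h
    have h0 : (p.1 : ℕ) = q.1 := h
    have h1 := hred p (by exact_mod_cast hp) q (by exact_mod_cast hq)
    rw [h0, sub_self, mul_zero] at h1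
    have h2 : ((q.2 : ℕ) : ℤ) - (p.2 : ℕ) = 0 := by
      rcases mul_eq_zero.1 h1.symm with h | h
      · exfalso
        have : u' = 0 := by exact_mod_cast h
        omega
      · exact h
    have h3 : (p.2 : ℕ) = q.2 := by omega
    exact Prod.ext (Fin.ext h0) (Fin.ext h3)
  have hinj2 : Set.InjOn (fun p : Fin H × Fin H => (p.2 : ℕ)) (S : Set (Fin H × Fin H)) := by
    intro p hp q hq h
    have h0 : (p.2 : ℕ) = q.2 := h
    have h1 := hred p (by exact_mod_cast hp) q (by exact_mod_cast hq)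
    rw [h0, sub_self, mul_zero] at h1
    have h2 : ((p.1 : ℕ) : ℤ) - (q.1 : ℕ) = 0 := by
      rcases mul_eq_zero.1 h1 with h | h
      · exfalso
        have : v' = 0 := by exact_mod_cast h
        omega
      · exact h
    have h3 : (p.1 : ℕ) = q.1 := by omega
    exact Prod.ext (Fin.ext h3) (Fin.ext h0)
  have hg0 : (0 : ℝ) < Nat.gcd u v := by exact_mod_cast hg
  have b1 : S.card ≤ H / u' + 1 := by
    rw [← card_image_of_injOn hinj1]
    refine card_congr H u' _ ?_ ?_
    · intro x hx'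
      rw [mem_image] at hx'
      obtain ⟨p, -, rfl⟩ := hx'
      exact p.1.2
    · intro x hx' y hy'
      rw [mem_image] at hx' hy'
      obtain ⟨p, hp, rfl⟩ := hx'
      obtain ⟨q, hq, rfl⟩ := hy'
      exact hx p hp q hq
  have b2 : S.card ≤ H / v' + 1 := by
    rw [← card_image_of_injOn hinj2]
    refine card_congr H v' _ ?_ ?_
    · intro x hx'
      rw [mem_image] at hx'
      obtain ⟨p, -, rfl⟩ := hx'
      exact p.2.2
    · intro x hx' y hy'
      rw [mem_image] at hx' hy'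
      obtain ⟨p, hp, rfl⟩ := hx'
      obtain ⟨q, hq, rfl⟩ := hy'
      exact hz p hp q hq
  have hu0 : (0 : ℝ) < u' := by exact_mod_cast hu1
  have hv0 : (0 : ℝ) < v' := by exact_mod_cast hv1
  rw [W]
  simp only
  rcases le_total v u with h | h
  · rw [max_eq_left h]
    have e : (Nat.gcd u v : ℝ) / u = 1 / u' := by
      have : (u : ℝ) = Nat.gcd u v * u' := by exact_mod_cast hu'
      rw [this]
      field_simp
    rw [e]
    calc (S.card : ℝ) ≤ ((H / u' + 1 : ℕ) : ℝ) := by exact_mod_cast b1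
      _ = ((H / u' : ℕ) : ℝ) + 1 := by push_cast; ring
      _ ≤ H / u' + 1 := by gcongr; exact Nat.cast_div_le
      _ = H * (1 / u') + 1 := by ring
  · rw [max_eq_right h]
    have e : (Nat.gcd u v : ℝ) / v = 1 / v' := by
      have : (v : ℝ) = Nat.gcd u v * v' := by exact_mod_cast hv'
      rw [this]
      field_simp
    rw [e]
    calc (S.card : ℝ) ≤ ((H / v' + 1 : ℕ) : ℝ) := by exact_mod_cast b2
      _ = ((H / v' : ℕ) : ℝ) + 1 := by push_cast; ring
      _ ≤ H / v' + 1 := by gcongr; exact Nat.cast_div_le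
      _ = H * (1 / v') + 1 := by ring

/-- Averaging over two coordinates. -/
theorem pp_le (J P : Type) [DecidableEq J] [Fintype J] [Fintype P] [Nonempty P]
    [hJP : Fintype (J → P)] (i k : J) (hik : i ≠ k)
    (A : (J → P) → Prop) (M : ℝ)
    (hM : ∀ f : J → P, (((univ : Finset (P × P)).filter
      (fun p => A (Function.update (Function.update f i p.1) k p.2))).card : ℝ) ≤ M) :
    ((univ.filter (fun f : J → P => A f)).card : ℝ) / (Fintype.card P : ℝ) ^ Fintype.card J ≤
      M / (Fintype.card P : ℝ) ^ 2 := by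
  have hP : (0 : ℝ) < Fintype.card P := by exact_mod_cast Fintype.card_pos
  have hinst : hJP = Pi.instFintype := Subsingleton.elim _ _
  subst hinst
  have h1 : ((univ : Finset ((J → P) × (P × P))).filter
      (fun q => A (Function.update (Function.update q.1 i q.2.1) k q.2.2))).card =
      ((univ : Finset ((J → P) × (P × P))).filter (fun q => A q.1)).card := by
    have hinv : ∀ q : (J → P) × (P × P),
        Function.update (Function.update (Function.update (Function.update q.1 i q.2.1) k q.2.2)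
          i (q.1 i)) k (q.1 k) = q.1 := by
      intro q
      ext x
      by_cases hx : x = k
      · subst hx; simp
      · by_cases hx' : x = i
        · subst hx'; simp [hik]
        · simp [hx, hx']
    refine card_bij' (fun q _ => (Function.update (Function.update q.1 i q.2.1) k q.2.2,
      (q.1 i, q.1 k))) (fun q _ => (Function.update (Function.update q.1 i q.2.1) k q.2.2,
      (q.1 i, q.1 k))) ?_ ?_ ?_ ?_
    · intro q hq
      rw [mem_filter] at hq ⊢
      exact ⟨mem_univ _, hq.2⟩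
    · intro q hq
      rw [mem_filter] at hq ⊢
      refine ⟨mem_univ _, ?_⟩
      show A (Function.update (Function.update (Function.update (Function.update q.1 i q.2.1) k
        q.2.2) i (q.1 i)) k (q.1 k))
      rw [hinv]
      exact hq.2
    · intro q _
      refine Prod.ext (hinv q) (Prod.ext ?_ ?_)
      · show Function.update (Function.update q.1 i q.2.1) k q.2.2 i = q.2.1
        simp [hik]
      · show Function.update (Function.update q.1 i q.2.1) k q.2.2 k = q.2.2
        simp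
    · intro q _
      refine Prod.ext (hinv q) (Prod.ext ?_ ?_)
      · show Function.update (Function.update q.1 i q.2.1) k q.2.2 i = q.2.1
        simp [hik]
      · show Function.update (Function.update q.1 i q.2.1) k q.2.2 k = q.2.2
        simp
  have h2 : ((univ : Finset ((J → P) × (P × P))).filter (fun q => A q.1)).card =
      (univ.filter (fun f : J → P => A f)).card * (Fintype.card P) ^ 2 := by
    have : (univ : Finset ((J → P) × (P × P))).filter (fun q => A q.1) =
        (univ.filter (fun f : J → P => A f)) ×ˢ (univ : Finset (P × P)) := by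
      ext q
      simp [mem_product]
    rw [this, card_product, card_univ, Fintype.card_prod, sq]
  have h3 : (((univ : Finset ((J → P) × (P × P))).filter
      (fun q => A (Function.update (Function.update q.1 i q.2.1) k q.2.2))).card : ℝ) ≤
      (Fintype.card P : ℝ) ^ Fintype.card J * M := by
    have : (((univ : Finset ((J → P) × (P × P))).filter
      (fun q => A (Function.update (Function.update q.1 i q.2.1) k q.2.2))).card : ℝ) =
      ∑ f : J → P, (((univ : Finset (P × P)).filter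
      (fun p => A (Function.update (Function.update f i p.1) k p.2))).card : ℝ) := by
      rw [card_filter, ← univ_product_univ, sum_product]
      push_cast
      refine sum_congr rfl fun f _ => ?_
      rw [card_filter]
      push_cast
      rfl
    rw [this]
    calc _ ≤ ∑ _f : J → P, M := sum_le_sum fun f _ => hM f
      _ = (Fintype.card P : ℝ) ^ Fintype.card J * M := by
        rw [sum_const, card_univ, nsmul_eq_mul, Fintype.card_fun]
        push_cast
        ring
  have h4 : ((univ.filter (fun f : J → P => A f)).card : ℝ) * (Fintype.card P : ℝ) ^ 2 ≤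
      (Fintype.card P : ℝ) ^ Fintype.card J * M := by
    rw [h1, h2] at h3
    push_cast at h3
    exact h3
  rw [div_le_div_iff₀ (by positivity) (by positivity)]
  linarith


/-- The sequence: slope `H`, curvature `1 / t`, noise `f`. -/
def val (H t n : ℕ) (f : Fin n → Fin H) (j : Fin n) : ℕ :=
  H * ((j : ℕ) + 1) + (j : ℕ) ^ 2 / (2 * t) + (f j : ℕ)

/-- Possible collinear triples. -/
def Valid (T n : ℕ) (e : Fin n × Fin n × Fin n) : Prop :=
  e.1 < e.2.1 ∧ e.2.1 < e.2.2 ∧ ((e.2.1 : ℕ) - e.1) * ((e.2.2 : ℕ) - e.2.1) ≤ T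

/-- The bad events. -/
def A (H t T n : ℕ) (e : Fin n × Fin n × Fin n) (f : Fin n → Fin H) : Prop :=
  Valid T n e ∧ ((e.2.2 : ℕ) - e.2.1) * val H t n f e.1 + ((e.2.1 : ℕ) - e.1) * val H t n f e.2.2 =
    ((e.2.2 : ℕ) - e.1) * val H t n f e.2.1

/-- The variables of an event. -/
def vbl (n : ℕ) (e : Fin n × Fin n × Fin n) : Finset (Fin n) := {e.1, e.2.1, e.2.2}

/-- The two differences. -/
def dif (n : ℕ) (e : Fin n × Fin n × Fin n) : ℕ × ℕ :=
  ((e.2.1 : ℕ) - e.1, (e.2.2 : ℕ) - e.2.1)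

theorem dif_mem (T n : ℕ) (e : Fin n × Fin n × Fin n) (h : Valid T n e) : dif n e ∈ D T := by
  obtain ⟨h1, h2, h3⟩ := h
  have h1' : (e.1 : ℕ) < e.2.1 := h1
  have h2' : (e.2.1 : ℕ) < e.2.2 := h2
  rw [D, mem_filter, mem_product, mem_Icc, mem_Icc]
  have e1 : 1 ≤ (dif n e).1 := by show 1 ≤ (e.2.1 : ℕ) - e.1; omega
  have e2 : 1 ≤ (dif n e).2 := by show 1 ≤ (e.2.2 : ℕ) - e.2.1; omega
  have h3' : (dif n e).1 * (dif n e).2 ≤ T := h3
  exact ⟨⟨⟨e1, by nlinarith⟩, e2, by nlinarith⟩, h3'⟩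

theorem pp_A (H t T n : ℕ) (inst : Fintype (Fin n → Fin H)) (hH : 0 < H) (e : Fin n × Fin n × Fin n) :
    ((univ.filter (fun f : Fin n → Fin H => A H t T n e f)).card : ℝ) /
      (Fintype.card (Fin H) : ℝ) ^ Fintype.card (Fin n) ≤
      if Valid T n e then W (dif n e) / H + 1 / (H : ℝ) ^ 2 else 0 := by
  have hH0 : (0 : ℝ) < H := by exact_mod_cast hH
  have : Nonempty (Fin H) := ⟨⟨0, hH⟩⟩
  by_cases hv : Valid T n e
  · rw [if_pos hv]
    obtain ⟨i, j, k⟩ := e
    obtain ⟨h1, h2, h3⟩ := hv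
    have h1' : (i : ℕ) < j := h1
    have h2' : (j : ℕ) < k := h2
    have hik : i ≠ k := fun h => by rw [h] at h1'; omega
    have hji : j ≠ i := fun h => by rw [h] at h1'; omega
    have hjk : j ≠ k := fun h => by rw [h] at h2'; omega
    have hkey := pp_le (Fin n) (Fin H) i k hik (A H t T n (i, j, k)) (H * W (dif n (i, j, k)) + 1) ?_
    · refine hkey.trans (le_of_eq ?_)
      rw [Fintype.card_fin]
      field_simp
    · intro f
      refine le_trans ?_ (count_sol H ((j : ℕ) - i) ((k : ℕ) - j)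
        (H * ((i : ℕ) + 1) + (i : ℕ) ^ 2 / (2 * t)) (H * ((k : ℕ) + 1) + (k : ℕ) ^ 2 / (2 * t))
        (((k : ℕ) - i) * val H t n f j) (by omega) (by omega))
      refine Nat.cast_le.2 (card_le_card ?_)
      intro p hp
      rw [mem_filter] at hp ⊢
      refine ⟨mem_univ _, ?_⟩
      obtain ⟨-, -, hp2⟩ := hp
      simp only [val] at hp2 ⊢
      rw [Function.update_of_ne hik, Function.update_self, Function.update_self,
        Function.update_of_ne hjk, Function.update_of_ne hji] at hp2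
      exact hp2
  · rw [if_neg hv]
    have : (univ.filter (fun f : Fin n → Fin H => A H t T n e f)) = ∅ := by
      rw [filter_eq_empty_iff]
      intro f _ h
      exact hv h.1
    rw [this]
    simp

theorem sum_role (T n : ℕ) (w : ℕ × ℕ → ℝ) (hw : ∀ p, 0 ≤ w p)
    (S : Finset (Fin n × Fin n × Fin n)) (hS : ∀ e ∈ S, Valid T n e)
    (hinj : ∀ e ∈ S, ∀ e' ∈ S, dif n e = dif n e' → e = e') :
    ∑ e ∈ S, w (dif n e) ≤ ∑ p ∈ D T, w p := by
  have h1 : ∑ e ∈ S, w (dif n e) = ∑ p ∈ S.image (dif n), w p := by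
    rw [sum_image]
    intro e he e' he' h
    exact hinj e (by exact_mod_cast he) e' (by exact_mod_cast he') h
  rw [h1]
  refine sum_le_sum_of_subset_of_nonneg ?_ fun p _ _ => hw p
  intro p hp
  rw [mem_image] at hp
  obtain ⟨e, he, rfl⟩ := hp
  exact dif_mem T n e (hS e he)

theorem sum_vbl (T n : ℕ) (w : ℕ × ℕ → ℝ) (hw : ∀ p, 0 ≤ w p) (j₀ : Fin n) :
    ∑ e ∈ univ.filter (fun e => j₀ ∈ vbl n e), (if Valid T n e then w (dif n e) else 0) ≤
      3 * ∑ p ∈ D T, w p := by
  rw [← sum_filter]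
  have hsub : (univ.filter (fun e => j₀ ∈ vbl n e)).filter (fun e => Valid T n e) ⊆
      (univ.filter (fun e : Fin n × Fin n × Fin n => Valid T n e ∧ e.1 = j₀)) ∪
      ((univ.filter (fun e : Fin n × Fin n × Fin n => Valid T n e ∧ e.2.1 = j₀)) ∪
      (univ.filter (fun e : Fin n × Fin n × Fin n => Valid T n e ∧ e.2.2 = j₀))) := by
    intro e he
    simp only [mem_filter, mem_univ, true_and, vbl, mem_insert, mem_singleton] at he
    simp only [mem_union, mem_filter, mem_univ, true_and]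
    rcases he.1 with h | h | h
    · exact Or.inl ⟨he.2, h.symm⟩
    · exact Or.inr (Or.inl ⟨he.2, h.symm⟩)
    · exact Or.inr (Or.inr ⟨he.2, h.symm⟩)
  have hun : ∀ S S' : Finset (Fin n × Fin n × Fin n),
      ∑ e ∈ S ∪ S', w (dif n e) ≤ ∑ e ∈ S, w (dif n e) + ∑ e ∈ S', w (dif n e) := by
    intro S S'
    have h1 := sum_union_inter (s₁ := S) (s₂ := S') (f := fun e => w (dif n e))
    have h2 : 0 ≤ ∑ e ∈ S ∩ S', w (dif n e) := sum_nonneg fun e _ => hw _
    linarith
  have hnn : ∀ e ∈ (univ : Finset (Fin n × Fin n × Fin n)), 0 ≤ w (dif n e) := fun e _ => hw _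
  refine (sum_le_sum_of_subset_of_nonneg hsub fun e _ _ => hw _).trans ?_
  refine (hun _ _).trans ?_
  have r1 := sum_role T n w hw (univ.filter (fun e : Fin n × Fin n × Fin n => Valid T n e ∧ e.1 = j₀))
    (fun e he => (mem_filter.1 he).2.1) (by
      rintro ⟨i, j, k⟩ he ⟨i', j', k'⟩ he' h
      obtain ⟨-, ⟨a1, a2, -⟩, a3⟩ := mem_filter.1 he
      obtain ⟨-, ⟨b1, b2, -⟩, b3⟩ := mem_filter.1 he'
      simp only [dif, Prod.mk.injEq] at h a1 a2 a3 b1 b2 b3
      subst a3
      subst b3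
      have a1' : (i' : ℕ) < j := a1
      have a2' : (j : ℕ) < k := a2
      have b1' : (i' : ℕ) < j' := b1
      have b2' : (j' : ℕ) < k' := b2
      have e1 : (j : ℕ) = j' := by omega
      have e2 : (k : ℕ) = k' := by omega
      rw [Fin.ext e1, Fin.ext e2])
  have r2 := sum_role T n w hw (univ.filter (fun e : Fin n × Fin n × Fin n => Valid T n e ∧ e.2.1 = j₀))
    (fun e he => (mem_filter.1 he).2.1) (by
      rintro ⟨i, j, k⟩ he ⟨i', j', k'⟩ he' h
      obtain ⟨-, ⟨a1, a2, -⟩, a3⟩ := mem_filter.1 he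
      obtain ⟨-, ⟨b1, b2, -⟩, b3⟩ := mem_filter.1 he'
      simp only [dif, Prod.mk.injEq] at h a1 a2 a3 b1 b2 b3
      subst a3
      subst b3
      have a1' : (i : ℕ) < j' := a1
      have a2' : (j' : ℕ) < k := a2
      have b1' : (i' : ℕ) < j' := b1
      have b2' : (j' : ℕ) < k' := b2
      have e1 : (i : ℕ) = i' := by omega
      have e2 : (k : ℕ) = k' := by omega
      rw [Fin.ext e1, Fin.ext e2])
  have r3 := sum_role T n w hw (univ.filter (fun e : Fin n × Fin n × Fin n => Valid T n e ∧ e.2.2 = j₀))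
    (fun e he => (mem_filter.1 he).2.1) (by
      rintro ⟨i, j, k⟩ he ⟨i', j', k'⟩ he' h
      obtain ⟨-, ⟨a1, a2, -⟩, a3⟩ := mem_filter.1 he
      obtain ⟨-, ⟨b1, b2, -⟩, b3⟩ := mem_filter.1 he'
      simp only [dif, Prod.mk.injEq] at h a1 a2 a3 b1 b2 b3
      subst a3
      subst b3
      have a1' : (i : ℕ) < j := a1
      have a2' : (j : ℕ) < k' := a2
      have b1' : (i' : ℕ) < j' := b1
      have b2' : (j' : ℕ) < k' := b2
      have e1 : (i : ℕ) = i' := by omega
      have e2 : (j : ℕ) = j' := by omega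
      rw [Fin.ext e1, Fin.ext e2])
  have r4 := hun (univ.filter (fun e : Fin n × Fin n × Fin n => Valid T n e ∧ e.2.1 = j₀))
    (univ.filter (fun e : Fin n × Fin n × Fin n => Valid T n e ∧ e.2.2 = j₀))
  linarith

/-- A good choice of the noise exists. -/
theorem core' (H t T n : ℕ) (hH : 0 < H)
    (hsum : 3 * ∑ p ∈ D T, (W p / H + 1 / (H : ℝ) ^ 2) ≤ 1 / 16) :
    ∃ f : Fin n → Fin H, ∀ e, ¬ A H t T n e f := by
  have hne : Nonempty (Fin H) := ⟨⟨0, hH⟩⟩
  have hHr : (0 : ℝ) < H := by exact_mod_cast hH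
  have hW : ∀ p, 0 ≤ W p := fun p => by rw [W]; positivity
  refine LLL.slll (Fin n) (Fin H) (Fin n × Fin n × Fin n) (vbl n) (A H t T n) ?_ ?_ ?_ ?_
  · intro e
    exact (card_le_three).trans (by norm_num)
  · intro e
    exact ⟨e.1, by simp [vbl]⟩
  · intro e f g hfg h
    refine ⟨h.1, ?_⟩
    have h2 := h.2
    have e1 := hfg e.1 (by simp [vbl])
    have e2 := hfg e.2.1 (by simp [vbl])
    have e3 := hfg e.2.2 (by simp [vbl])
    simp only [val] at h2 ⊢
    rw [← e1, ← e2, ← e3]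
    exact h2
  · intro j₀
    refine le_trans ?_ hsum
    refine le_trans ?_ (sum_vbl T n (fun p => W p / H + 1 / (H : ℝ) ^ 2)
            (fun p => add_nonneg (div_nonneg (hW p) hHr.le) (by positivity)) j₀)
    refine le_trans (sum_le_sum (g := fun e : Fin n × Fin n × Fin n =>
      (if Valid T n e then W (dif n e) / H + 1 / (H : ℝ) ^ 2 else 0))
      fun e _ => @pp_A H t T n _ hH e) (le_of_eq ?_)
    refine sum_congr ?_ fun _ _ => rfl
    ext e
    simp only [mem_filter]

/-- A good sequence exists. -/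
theorem core (l t : ℕ) (hl : 1 ≤ l) (ht : 1 ≤ t)
    (hlog : 1 + Real.log (((600 * l * t) ^ 2 : ℕ) : ℝ) ≤ l) :
    ∃ f : Fin ((600 * l * t) ^ 2) → Fin (180000 * l ^ 2 * t),
      ∀ e, ¬ A (180000 * l ^ 2 * t) t ((600 * l * t) ^ 2) ((600 * l * t) ^ 2) e f := by
  obtain ⟨s, hs⟩ : ∃ s, s = 600 * l * t := ⟨_, rfl⟩
  obtain ⟨H, hH⟩ : ∃ H, H = 180000 * l ^ 2 * t := ⟨_, rfl⟩
  rw [← hs] at hlog ⊢
  rw [← hH]
  have hHs : H = 300 * l * s := by rw [hH, hs]; ring
  have hH0 : 0 < H := by rw [hH]; positivity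
  have hs1 : 1 ≤ s := by rw [hs]; exact Nat.mul_pos (Nat.mul_pos (by norm_num) hl) ht
  have hHr : (0 : ℝ) < H := by exact_mod_cast hH0
  have hl0 : (1 : ℝ) ≤ l := by exact_mod_cast hl
  have hs0 : (1 : ℝ) ≤ s := by exact_mod_cast hs1
  have hHe : (H : ℝ) = 300 * l * s := by rw [hHs]; push_cast; ring
  refine core' H t (s ^ 2) (s ^ 2) hH0 ?_
  calc 3 * ∑ p ∈ D (s ^ 2), (W p / H + 1 / (H : ℝ) ^ 2)
        = 3 * ((∑ p ∈ D (s ^ 2), W p) / H + (D (s ^ 2)).card / (H : ℝ) ^ 2) := by
          rw [sum_add_distrib, sum_const, nsmul_eq_mul, sum_div]; ring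
      _ ≤ 3 * ((6 * s * (1 + Real.log s)) / H + (((s ^ 2 : ℕ) : ℝ) * (1 + Real.log ((s ^ 2 : ℕ) : ℝ))) /
            (H : ℝ) ^ 2) := by
          gcongr
          · exact sum_W s hs1
          · exact card_D (s ^ 2)
      _ ≤ 3 * ((6 * s * l) / H + (((s ^ 2 : ℕ) : ℝ) * l) / (H : ℝ) ^ 2) := by
          gcongr
          have : Real.log s ≤ Real.log ((s ^ 2 : ℕ) : ℝ) := by
            apply Real.log_le_log (by linarith)
            push_cast
            nlinarith
          linarith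
      _ ≤ 1 / 16 := by
          rw [hHe]
          push_cast
          have e1 : (6 * (s : ℝ) * l) / (300 * l * s) = 1 / 50 := by field_simp; norm_num
          have e2 : ((s : ℝ) ^ 2 * l) / (300 * l * s) ^ 2 = 1 / (90000 * l) := by
            field_simp; norm_num
          rw [e1, e2]
          have e3 : (1 : ℝ) / (90000 * l) ≤ 1 / 90000 := by
            apply one_div_le_one_div_of_le (by norm_num); linarith
          linarith

end Pool.Agent.X66.NTL
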