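import Mathlib

namespace Pool.Agent.X66

open Filter Topology

universe v

variable {H : Type v} [NormedAddCommGroup H] [InnerProductSpace ℝ H] [CompleteSpace H]

lemma aux1 {A A' : H →ₗ.[ℝ] H} (hd : Dense (A.domain : Set H)) (h : A.adjoint = A') (y w : H)
    (hy : ∀ x : A.domain, inner ℝ w (x : H) = inner ℝ y (A x)) :
    ∃ hy : y ∈ A'.domain, A' ⟨y, hy⟩ = w := by
  subst h
  have h1 : y ∈ A.adjoint.domain := LinearPMap.mem_adjoint_domain_of_exists y ⟨w, hy⟩
  exact ⟨h1, LinearPMap.adjoint_apply_eq hd ⟨y, h1⟩ hy⟩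

lemma aux2 {A A' : H →ₗ.[ℝ] H} (hd : Dense (A.domain : Set H)) (h : A.adjoint = A') :
    A'.IsFormalAdjoint A := by
  subst h
  exact LinearPMap.adjoint_isFormalAdjoint hd

lemma aux3 {A A' : H →ₗ.[ℝ] H} (hd : Dense (A.domain : Set H)) (h : A.adjoint = A') :
    A'.IsClosed := by
  subst h
  exact LinearPMap.adjoint_isClosed hd

theorem sa_inv (A : H →ₗ.[ℝ] H) (b : ℝ) (hb : 0 < b) (hd : Dense (A.domain : Set H))
    (hA : A.adjoint = A) (hc : ∀ x : A.domain, b * ‖(x : H)‖ ^ 2 ≤ inner ℝ (A x) (x : H)) :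
    ∃ T : H →L[ℝ] H, (∀ x, T x ∈ A.domain) ∧ (∀ (x : H) (h : T x ∈ A.domain), A ⟨T x, h⟩ = x) ∧
      (∀ v : A.domain, T (A v) = (v : H)) ∧ (∀ x y : H, inner ℝ (T x) y = inner ℝ x (T y)) ∧
      (∀ x : H, b * ‖T x‖ ^ 2 ≤ inner ℝ (T x) x) ∧ DenseRange T := by
  have hlow : ∀ x : A.domain, b * ‖(x : H)‖ ≤ ‖A x‖ := by
    intro x
    have h1 := hc x
    have h2 := real_inner_le_norm (A x) (x : H)
    rcases (norm_nonneg (x : H)).eq_or_lt with h0 | h0
    · rw [← h0, mul_zero]; exact norm_nonneg _
    · by_contra hlt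
      have := mul_lt_mul_of_pos_right (not_le.mp hlt) h0
      nlinarith
  have hinj : Function.Injective A.toFun := by
    rw [← LinearMap.ker_eq_bot, LinearMap.ker_eq_bot']
    intro x hx
    have h1 := hlow x
    have h2 : A x = 0 := hx
    rw [h2, norm_zero] at h1
    have h3 : ‖(x : H)‖ ≤ 0 := by
      by_contra hh
      have := mul_pos hb (not_le.mp hh)
      linarith
    have h4 : (x : H) = 0 := norm_le_zero_iff.mp h3
    exact Subtype.ext h4
  have hclosed : IsClosed (A.graph : Set (H × H)) := aux3 hd hA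
  have hsurj : Function.Surjective A.toFun := by
    rw [← LinearMap.range_eq_top]
    have hRc : IsClosed ((LinearMap.range A.toFun : Submodule ℝ H) : Set H) := by
      apply IsSeqClosed.isClosed
      intro y y0 hy hlim
      choose x hx using hy
      have hcau : CauchySeq (fun n => ((x n : A.domain) : H)) := by
        have hyc := hlim.cauchySeq
        rw [Metric.cauchySeq_iff] at hyc ⊢
        intro ε hε
        obtain ⟨N, hN⟩ := hyc (b * ε) (by positivity)
        refine ⟨N, fun m hm n hn => ?_⟩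
        have h1 := hN m hm n hn
        rw [dist_eq_norm] at h1 ⊢
        have h2 := hlow (x m - x n)
        have h3 : A (x m - x n) = y m - y n := by
          rw [← hx m, ← hx n]
          exact map_sub A.toFun _ _
        rw [h3] at h2
        have h4 : ((x m - x n : A.domain) : H) = (x m : H) - (x n : H) := rfl
        rw [h4] at h2
        by_contra hge
        have := mul_le_mul_of_nonneg_left (not_lt.mp hge) hb.le
        linarith
      obtain ⟨x0, hx0⟩ := cauchySeq_tendsto_of_complete hcau
      have hg : (x0, y0) ∈ (A.graph : Set (H × H)) := by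
        apply hclosed.mem_of_tendsto (hx0.prodMk_nhds hlim)
        apply Filter.Eventually.of_forall
        intro n
        rw [SetLike.mem_coe, LinearPMap.mem_graph_iff]
        exact ⟨x n, rfl, hx n⟩
      rw [SetLike.mem_coe, LinearPMap.mem_graph_iff] at hg
      obtain ⟨z, _, hz2⟩ := hg
      exact ⟨z, hz2⟩
    have hperp : (LinearMap.range A.toFun)ᗮ = ⊥ := by
      rw [Submodule.eq_bot_iff]
      intro y hy
      rw [Submodule.mem_orthogonal] at hy
      obtain ⟨h1, h2⟩ := aux1 hd hA y 0 (fun x => by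
        rw [inner_zero_left]
        have := hy (A x) ⟨x, rfl⟩
        rw [real_inner_comm] at this
        exact this.symm)
      have h3 := hlow ⟨y, h1⟩
      rw [h2, norm_zero] at h3
      have h4 : ‖y‖ ≤ 0 := by
        by_contra hh
        have := mul_pos hb (not_le.mp hh)
        simp only at h3
        linarith
      exact norm_le_zero_iff.mp h4
    have : CompleteSpace (LinearMap.range A.toFun) := hRc.completeSpace_coe
    have := Submodule.orthogonal_orthogonal (LinearMap.range A.toFun)
    rw [hperp, Submodule.bot_orthogonal_eq_top] at this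
    exact this.symm
  set e := LinearEquiv.ofBijective A.toFun ⟨hinj, hsurj⟩ with he
  have heA : ∀ x : H, A (e.symm x) = x := fun x => e.apply_symm_apply x
  have hbd : ∀ x : H, ‖(A.domain.subtype ∘ₗ (e.symm : H →ₗ[ℝ] A.domain)) x‖ ≤ b⁻¹ * ‖x‖ := by
    intro x
    have h1 := hlow (e.symm x)
    rw [heA] at h1
    change ‖((e.symm x : A.domain) : H)‖ ≤ b⁻¹ * ‖x‖
    rw [inv_mul_eq_div, le_div_iff₀ hb]
    linarith
  set T : H →L[ℝ] H := LinearMap.mkContinuous _ b⁻¹ hbd with hT
  have hTe : ∀ x, T x = ((e.symm x : A.domain) : H) := fun x => rfl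
  have hmem : ∀ x, T x ∈ A.domain := fun x => by rw [hTe]; exact (e.symm x).2
  have hright : ∀ (x : H) (h : T x ∈ A.domain), A ⟨T x, h⟩ = x := by
    intro x h
    have : (⟨T x, h⟩ : A.domain) = e.symm x := Subtype.ext (hTe x)
    rw [this, heA]
  have hleft : ∀ v : A.domain, T (A v) = (v : H) := by
    intro v
    rw [hTe]
    have : e.symm (A v) = v := e.symm_apply_apply v
    rw [this]
  have hfa := aux2 hd hA
  refine ⟨T, hmem, hright, hleft, ?_, ?_, ?_⟩
  · intro x y
    have h1 := hfa ⟨T y, hmem y⟩ ⟨T x, hmem x⟩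
    rw [hright, hright] at h1
    -- ⟪y, T x⟫ = ⟪T y, x⟫
    simp only at h1
    rw [real_inner_comm, h1, real_inner_comm]
  · intro x
    have h1 := hc ⟨T x, hmem x⟩
    rw [hright] at h1
    rw [real_inner_comm]
    exact h1
  · have : Set.range T = (A.domain : Set H) := by
      ext z
      constructor
      · rintro ⟨x, rfl⟩
        exact hmem x
      · intro hz
        exact ⟨A ⟨z, hz⟩, hleft ⟨z, hz⟩⟩
    rw [DenseRange, this]
    exact hd

end Pool.Agent.X66
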