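import Pool.Agent.X238.DW.Stm3
import Pool.Agent.X66.SAInv

namespace Pool.Agent.X66

universe v

theorem t_SA : Pool.Agent.X238.DW.S_SA.{v} := fun H _ _ _ A b hb hd hA hc => by
  obtain ⟨T, h1, h2, h3, h4, h5, h6⟩ := sa_inv A b hb hd hA hc
  exact ⟨T, ⟨h1, h2, h3, h4, h5, h6⟩⟩

end Pool.Agent.X66
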